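import Pool.Agent.Helper91.FS.Goals3
import Mathlib.Algebra.Polynomial.Taylor
import Mathlib.FieldTheory.Finite.Basic
import Mathlib.LinearAlgebra.Lagrange

/-!
# Project FS (MP_0130f7_co), packet BUR1: P. Mueller's proof of Burnside's theorem
-/

set_option autoImplicit false

namespace Pool.Agent.Helper41.FS

open Polynomial Finset

variable {p : ℕ} [Fact p.Prime]

/-- a polynomial of degree `< p` which vanishes everywhere is zero -/
lemma bur_eq_zero {f : (ZMod p)[X]} (hd : f.natDegree < p) (h : ∀ x, f.eval x = 0) : f = 0 := by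
  by_contra hf
  have h1 := Polynomial.card_roots' f
  have h2 : (Finset.univ : Finset (ZMod p)) ⊆ f.roots.toFinset := fun x _ => by
    rw [Multiset.mem_toFinset, Polynomial.mem_roots hf]
    exact h x
  have h3 := Finset.card_le_card h2
  have h4 := Multiset.toFinset_card_le f.roots
  rw [Finset.card_univ, ZMod.card] at h3
  omega

/-- the operator `D` on polynomials -/
noncomputable def burD (U : Finset (ZMod p)) (f : (ZMod p)[X]) : (ZMod p)[X] :=
  ∑ u ∈ U, (taylor u f - f)

lemma bur_eval (U : Finset (ZMod p)) (f : (ZMod p)[X]) (x : ZMod p) :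
    (burD U f).eval x = ∑ u ∈ U, (f.eval (x + u) - f.eval x) := by
  rw [burD, eval_finsetSum]
  refine Finset.sum_congr rfl fun u _ => ?_
  rw [eval_sub, taylor_eval]

lemma bur_coeff (U : Finset (ZMod p)) (f : (ZMod p)[X]) (m : ℕ) (hf : f.natDegree ≤ m) (n : ℕ) :
    (burD U f).coeff n =
      ∑ i ∈ Finset.range m, ((i + 1 + n).choose n : ZMod p) * f.coeff (i + 1 + n) * ∑ u ∈ U, u ^ (i + 1) := by
  rw [burD, finsetSum_coeff]
  have h1 : ∀ u ∈ U, (taylor u f - f).coeff n =
      ∑ i ∈ Finset.range m, ((i + 1 + n).choose n : ZMod p) * f.coeff (i + 1 + n) * u ^ (i + 1) := by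
    intro u _
    have h2 : (hasseDeriv n f).natDegree < m + 1 :=
      lt_of_le_of_lt ((natDegree_hasseDeriv_le f n).trans (Nat.sub_le _ _)) (by omega)
    rw [coeff_sub, taylor_coeff, eval_eq_sum_range' h2, Finset.sum_range_succ']
    simp only [hasseDeriv_coeff, pow_zero, mul_one, zero_add, Nat.choose_self, Nat.cast_one, one_mul]
    rw [add_sub_cancel_right]
  rw [Finset.sum_congr rfl h1, Finset.sum_comm]
  refine Finset.sum_congr rfl fun i _ => ?_
  rw [Finset.mul_sum]

/-- the coefficients above `m - r` vanish -/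
lemma bur_coeff_zero (U : Finset (ZMod p)) (f : (ZMod p)[X]) (m : ℕ) (hf : f.natDegree ≤ m) (r : ℕ)
    (hS : ∀ j, 1 ≤ j → j < r → ∑ u ∈ U, u ^ j = 0) (n : ℕ) (hn : m < n + r) :
    (burD U f).coeff n = 0 := by
  rw [bur_coeff U f m hf n]
  refine Finset.sum_eq_zero fun i _ => ?_
  by_cases h : i + 1 < r
  · rw [hS (i + 1) (by omega) h, mul_zero]
  · rw [coeff_eq_zero_of_natDegree_lt (by omega), mul_zero, zero_mul]

lemma bur_coeff_top (U : Finset (ZMod p)) (f : (ZMod p)[X]) (m : ℕ) (hf : f.natDegree ≤ m) (r : ℕ)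
    (hr : 1 ≤ r) (hS : ∀ j, 1 ≤ j → j < r → ∑ u ∈ U, u ^ j = 0) (n : ℕ) (hn : n + r = m) :
    (burD U f).coeff n = ((r + n).choose n : ZMod p) * f.coeff m * ∑ u ∈ U, u ^ r := by
  rw [bur_coeff U f m hf n, Finset.sum_eq_single (r - 1)]
  · have h1 : r - 1 + 1 = r := by omega
    have h2 : r + n = m := by omega
    rw [h1, h2]
  · intro i _ hi
    by_cases h : i + 1 < r
    · rw [hS (i + 1) (by omega) h, mul_zero]
    · rw [coeff_eq_zero_of_natDegree_lt (by omega), mul_zero, zero_mul]
  · intro h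
    exact absurd (Finset.mem_range.mpr (by omega)) h

lemma bur_choose {m n : ℕ} (hm : m < p) (hn : n ≤ m) : (m.choose n : ZMod p) ≠ 0 := by
  intro h
  rw [ZMod.natCast_eq_zero_iff] at h
  have hp : p.Prime := Fact.out
  have h1 : p ∣ m.factorial := by
    rw [← Nat.choose_mul_factorial_mul_factorial hn, mul_assoc]
    exact dvd_mul_of_dvd_left h _
  have := (Nat.Prime.dvd_factorial hp).mp h1
  omega

/-- if `deg f ≥ r` then `D f ≠ 0`, even as a function; more precisely its degree is `deg f - r` -/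
lemma bur_ne (U : Finset (ZMod p)) (f : (ZMod p)[X]) (m : ℕ) (hf : f.natDegree = m) (hf0 : f ≠ 0) (hm : m < p)
    (r : ℕ) (hr : 1 ≤ r) (hrm : r ≤ m) (hS : ∀ j, 1 ≤ j → j < r → ∑ u ∈ U, u ^ j = 0)
    (hSr : ∑ u ∈ U, u ^ r ≠ 0) :
    (burD U f).natDegree ≤ m - r ∧ (burD U f).coeff (m - r) ≠ 0 := by
  refine ⟨?_, ?_⟩
  · rw [natDegree_le_iff_coeff_eq_zero]
    intro N hN
    exact bur_coeff_zero U f m hf.le r hS N (by omega)
  · rw [bur_coeff_top U f m hf.le r hr hS (m - r) (by omega)]
    refine mul_ne_zero (mul_ne_zero (bur_choose (by omega) (by omega)) ?_) hSr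
    rw [← hf]
    exact leadingCoeff_ne_zero.mpr hf0

/-- if `deg f < r` then `D f = 0` -/
lemma bur_zero (U : Finset (ZMod p)) (f : (ZMod p)[X]) (r : ℕ) (hf : f.natDegree < r)
    (hS : ∀ j, 1 ≤ j → j < r → ∑ u ∈ U, u ^ j = 0) : burD U f = 0 := by
  ext n
  rw [coeff_zero]
  exact bur_coeff_zero U f f.natDegree le_rfl r hS n (by omega)

/-- some power sum of a nonempty set of nonzero elements is not zero -/
lemma bur_vdm (V : Finset (ZMod p)) (hV : V.Nonempty) (h0 : (0 : ZMod p) ∉ V) :
    ∃ j, 1 ≤ j ∧ j ≤ V.card ∧ ∑ v ∈ V, v ^ j ≠ 0 := by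
  by_contra hc
  push Not at hc
  obtain ⟨v₀, hv₀⟩ := hV
  set g : (ZMod p)[X] := ∏ w ∈ V.erase v₀, (X - C w) with hg
  have hcard : 1 ≤ V.card := Finset.card_pos.mpr ⟨v₀, hv₀⟩
  have hdeg : g.natDegree < V.card := by
    have h1 : g.natDegree = (V.erase v₀).card := by
      rw [hg, natDegree_prod_of_monic _ _ fun w _ => monic_X_sub_C w]
      simp
    rw [h1, Finset.card_erase_of_mem hv₀]
    omega
  have h1 : ∑ v ∈ V, v * g.eval v = v₀ * g.eval v₀ := by
    refine Finset.sum_eq_single v₀ (fun v hv hne => ?_) fun h => absurd hv₀ h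
    have h2 : g.eval v = 0 := by
      rw [hg, eval_prod]
      exact Finset.prod_eq_zero (Finset.mem_erase.mpr ⟨hne, hv⟩) (by simp)
    rw [h2, mul_zero]
  have h2 : v₀ * g.eval v₀ ≠ 0 := by
    refine mul_ne_zero (fun h => h0 (h ▸ hv₀)) ?_
    rw [hg, eval_prod]
    refine Finset.prod_ne_zero_iff.mpr fun w hw => ?_
    rw [eval_sub, eval_X, eval_C]
    exact sub_ne_zero.mpr (Finset.mem_erase.mp hw).1.symm
  apply h2
  rw [← h1]
  have h3 : ∀ v ∈ V, v * g.eval v = ∑ i ∈ Finset.range V.card, g.coeff i * v ^ (i + 1) := by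
    intro v _
    rw [eval_eq_sum_range' hdeg, Finset.mul_sum]
    refine Finset.sum_congr rfl fun i _ => ?_
    ring
  rw [Finset.sum_congr rfl h3, Finset.sum_comm]
  refine Finset.sum_eq_zero fun i hi => ?_
  rw [← Finset.mul_sum, hc (i + 1) (by omega) (by have := Finset.mem_range.mp hi; omega), mul_zero]

/-- part (0) -/
lemma bur_exists (U : Finset (ZMod p)) (hU : U.Nonempty) (h0 : (0 : ZMod p) ∉ U) (hU' : ∃ x, x ≠ 0 ∧ x ∉ U) :
    ∃ j, 1 ≤ j ∧ 2 * j ≤ p - 1 ∧ ∑ u ∈ U, u ^ j ≠ 0 := by
  classical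
  by_cases hle : 2 * U.card ≤ p - 1
  · obtain ⟨j, h1, h2, h3⟩ := bur_vdm U hU h0
    exact ⟨j, h1, by omega, h3⟩
  · set V : Finset (ZMod p) := (Finset.univ.erase 0) \ U with hV
    have hsub : U ⊆ Finset.univ.erase 0 := fun u hu =>
      Finset.mem_erase.mpr ⟨fun h => h0 (h ▸ hu), Finset.mem_univ _⟩
    have hcard : V.card + U.card = p - 1 := by
      rw [hV, Finset.card_sdiff_add_card_eq_card hsub, Finset.card_erase_of_mem (Finset.mem_univ _),
        Finset.card_univ, ZMod.card]
    have hVne : V.Nonempty := by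
      obtain ⟨x, hx, hxU⟩ := hU'
      exact ⟨x, Finset.mem_sdiff.mpr ⟨Finset.mem_erase.mpr ⟨hx, Finset.mem_univ _⟩, hxU⟩⟩
    have hV0 : (0 : ZMod p) ∉ V := fun h => (Finset.mem_erase.mp (Finset.mem_sdiff.mp h).1).1 rfl
    obtain ⟨j, h1, h2, h3⟩ := bur_vdm V hVne hV0
    have hUc : 1 ≤ U.card := Finset.card_pos.mpr hU
    refine ⟨j, h1, by omega, fun h => h3 ?_⟩
    have h4 : ∑ v ∈ V, v ^ j + ∑ u ∈ U, u ^ j = ∑ x ∈ Finset.univ.erase (0 : ZMod p), x ^ j :=
      Finset.sum_sdiff hsub
    have h5 : ∑ x : ZMod p, x ^ j = 0 := by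
      apply FiniteField.sum_pow_lt_card_sub_one
      rw [ZMod.card]
      omega
    have h6 : ∑ x ∈ Finset.univ.erase (0 : ZMod p), x ^ j = 0 := by
      rw [← Finset.add_sum_erase _ _ (Finset.mem_univ (0 : ZMod p)), zero_pow (by omega), zero_add] at h5
      exact h5
    rw [h6, h, add_zero] at h4
    exact h4

theorem goal_BUR1 : Pool.Agent.Helper91.FS.Goal_BUR1 := by
  classical
  intro p _ U π hU h0 hU' hπ
  have hp : p.Prime := Fact.out
  have hp2 := hp.two_le
  -- the least `r`
  have hex := bur_exists U hU h0 hU'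
  set r := Nat.find hex with hrdef
  obtain ⟨hr1, hr2, hSr⟩ := Nat.find_spec hex
  have hS : ∀ j, 1 ≤ j → j < r → ∑ u ∈ U, u ^ j = 0 := by
    intro j hj hjr
    by_contra hc
    exact Nat.find_min hex hjr ⟨hj, by omega, hc⟩
  rw [← hrdef] at hr1 hr2 hSr
  -- `D (f ∘ π) = (D f) ∘ π`
  have hcomm : ∀ (f : ZMod p → ZMod p) (x : ZMod p),
      ∑ u ∈ U, (f (π (x + u)) - f (π x)) = ∑ u ∈ U, (f (π x + u) - f (π x)) := by
    intro f x
    have himg : U.image (fun u => π (x + u) - π x) = U := by
      apply Finset.eq_of_subset_of_card_le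
      · intro v hv
        obtain ⟨u, hu, rfl⟩ := Finset.mem_image.mp hv
        exact hπ (x + u) x (by rwa [add_sub_cancel_left])
      · rw [Finset.card_image_of_injective]
        intro u u' h
        have h1 : π (x + u) = π (x + u') := by simpa using h
        exact add_left_cancel (π.injective h1)
    have hinj : Set.InjOn (fun u => π (x + u) - π x) (U : Set (ZMod p)) := by
      intro u _ u' _ h
      have h1 : π (x + u) = π (x + u') := by simpa using h
      exact add_left_cancel (π.injective h1)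
    conv_rhs => rw [← himg]
    rw [Finset.sum_image hinj]
    refine Finset.sum_congr rfl fun u _ => ?_
    rw [add_sub_cancel]
  -- the polynomial of `π`
  obtain ⟨f, hfd, hf⟩ : ∃ f : (ZMod p)[X], f.natDegree < p ∧ ∀ x, f.eval x = π x := by
    refine ⟨Lagrange.interpolate Finset.univ id (fun x => π x), ?_, fun x => ?_⟩
    · have h1 := Lagrange.degree_interpolate_lt (s := (Finset.univ : Finset (ZMod p))) (v := id)
        (fun x => π x) Function.injective_id.injOn
      rw [Finset.card_univ, ZMod.card] at h1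
      by_cases h2 : Lagrange.interpolate (Finset.univ : Finset (ZMod p)) id (fun x => π x) = 0
      · rw [h2, natDegree_zero]
        omega
      · exact (natDegree_lt_iff_degree_lt h2).mpr h1
    · exact Lagrange.eval_interpolate_at_node (v := id) (fun x => π x) Function.injective_id.injOn
        (Finset.mem_univ x)
  have hm1 : 1 ≤ f.natDegree := by
    by_contra hc
    have h1 : f.natDegree = 0 := by omega
    rw [natDegree_eq_zero] at h1
    obtain ⟨c, rfl⟩ := h1
    have h2 : π 0 = π 1 := by rw [← hf, ← hf, eval_C, eval_C]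
    exact zero_ne_one (π.injective h2)
  have hf0 : f ≠ 0 := by
    rintro rfl
    rw [natDegree_zero] at hm1
    omega
  have hDπ : ∀ x, (burD U f).eval x = ∑ u ∈ U, u := by
    intro x
    rw [bur_eval]
    have h1 := hcomm id x
    simp only [id] at h1
    have h2 : ∑ u ∈ U, (π x + u - π x) = ∑ u ∈ U, u :=
      Finset.sum_congr rfl fun u _ => add_sub_cancel_left _ _
    rw [← h2, ← h1]
    exact Finset.sum_congr rfl fun u _ => by rw [hf, hf]
  -- the degree is one
  have hm : f.natDegree = 1 := by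
    by_cases hr : r = 1
    · obtain ⟨h1, h2⟩ := bur_ne U f f.natDegree rfl hf0 hfd r hr1 (by omega) hS hSr
      have h3 : burD U f - C (∑ u ∈ U, u) = 0 := by
        apply bur_eq_zero
        · refine lt_of_le_of_lt (natDegree_sub_le _ _) ?_
          rw [natDegree_C]
          omega
        · intro x
          rw [eval_sub, eval_C, hDπ x, sub_self]
      rw [sub_eq_zero] at h3
      by_contra hc
      apply h2
      rw [h3, coeff_C, if_neg (by omega)]
    · have hr2' : 2 ≤ r := by omega
      have hS1 : ∑ u ∈ U, u = 0 := by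
        have := hS 1 le_rfl (by omega)
        simpa using this
      have hlt : f.natDegree < r := by
        by_contra hc
        obtain ⟨h1, h2⟩ := bur_ne U f f.natDegree rfl hf0 hfd r hr1 (by omega) hS hSr
        apply h2
        have h3 : burD U f = 0 := by
          apply bur_eq_zero (by omega)
          intro x
          rw [hDπ x, hS1]
        rw [h3, coeff_zero]
      by_contra hc
      have hk2 : 2 ≤ f.natDegree := by omega
      have hj : ∃ j, r ≤ f.natDegree * j := ⟨r, by nlinarith⟩
      set j := Nat.find hj with hjdef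
      have hj1 : r ≤ f.natDegree * j := Nat.find_spec hj
      have hj2 : ∀ i, i < j → f.natDegree * i < r := fun i hi => not_le.mp (Nat.find_min hj hi)
      have hjpos : 1 ≤ j := by
        rcases Nat.eq_zero_or_pos j with h | h
        · rw [h, mul_zero] at hj1
          omega
        · exact h
      have hjr : j ≤ r - 1 := by
        by_contra hc2
        have h1 := hj2 (r - 1) (by omega)
        have h2 : 2 * (r - 1) ≤ f.natDegree * (r - 1) := Nat.mul_le_mul_right _ hk2
        omega
      have hub : f.natDegree * j ≤ (r - 1) + f.natDegree := by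
        have h1 := hj2 (j - 1) (by omega)
        have h2 : f.natDegree * j = f.natDegree * (j - 1) + f.natDegree := by
          conv_lhs => rw [show j = j - 1 + 1 by omega]
          ring
        omega
      have hnd : (f ^ j).natDegree = f.natDegree * j := by
        rw [natDegree_pow, mul_comm]
      obtain ⟨h1, h2⟩ := bur_ne U (f ^ j) (f.natDegree * j) hnd (pow_ne_zero _ hf0) (by omega) r hr1 hj1 hS hSr
      apply h2
      have h3 : burD U (f ^ j) = 0 := by
        apply bur_eq_zero (by omega)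
        intro x
        rw [bur_eval]
        have h4 := hcomm (fun y => y ^ j) x
        have h5 : burD U ((X : (ZMod p)[X]) ^ j) = 0 := bur_zero U _ r (by rw [natDegree_X_pow]; omega) hS
        have h6 := bur_eval U ((X : (ZMod p)[X]) ^ j) (π x)
        rw [h5, eval_zero] at h6
        simp only [eval_pow, eval_X] at h6
        simp only [eval_pow, hf]
        rw [h6]
        exact h4
      rw [h3, coeff_zero]
  refine ⟨f.coeff 1, f.coeff 0, fun x => ?_⟩
  rw [← hf x, eval_eq_sum_range, hm, Finset.sum_range_succ, Finset.sum_range_one]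
  ring

end Pool.Agent.Helper41.FS
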